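import Mathlib

/-!
# Transition edges in `q^(n-d+1)`-colourings of Hamming-distance graphs (MP_3553b5_co)
-/

namespace Pool.Agent.Results.MP_3553b5_co.TransitionEdges

/-- The Hamming-distance graph `H_q(n,d)`. -/
def HD (q n d : ℕ) : SimpleGraph (Fin n → ZMod q) where
  Adj x y := x ≠ y ∧ d ≤ hammingDist x y
  symm := ⟨fun x y h => ⟨h.1.symm, by rw [hammingDist_comm]; exact h.2⟩⟩
  loopless := ⟨fun x h => h.1 rfl⟩

/-- `{x,y}` is a transition edge for the colouring `K`: it is an edge, and exchanging the values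
at `x` and `y` gives again a proper colouring. -/
def IsTransitionEdge {V C : Type} [DecidableEq V] (G : SimpleGraph V) (K : V → C) (x y : V) :
    Prop :=
  G.Adj x y ∧ ∀ u v, G.Adj u v → K (Equiv.swap x y u) ≠ K (Equiv.swap x y v)

/-! ### The case `d = 2`: there are no transition edges -/

section two

variable {q n : ℕ}

/-- distance at most one: a coordinate outside which they agree -/
theorem exists_coord (hn : 1 ≤ n) {x y : Fin n → ZMod q} (h : hammingDist x y ≤ 1) :
    ∃ i, ∀ j, j ≠ i → x j = y j := by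
  unfold hammingDist at h
  rcases Nat.lt_or_eq_of_le h with h0 | h1
  · have h0 : (Finset.univ.filter fun i => x i ≠ y i) = ∅ := Finset.card_eq_zero.1 (by omega)
    refine ⟨⟨0, hn⟩, fun j _ => ?_⟩
    by_contra hj
    have : j ∈ (Finset.univ.filter fun i => x i ≠ y i) := by simp [hj]
    rw [h0] at this
    simp at this
  · obtain ⟨i, hi⟩ := Finset.card_eq_one.1 h1
    refine ⟨i, fun j hj => ?_⟩
    by_contra hne
    have : j ∈ (Finset.univ.filter fun i => x i ≠ y i) := by simp [hne]
    rw [hi, Finset.mem_singleton] at this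
    exact hj this

theorem dist_le_one_of {x y : Fin n → ZMod q} (i : Fin n) (h : ∀ j, j ≠ i → x j = y j) :
    hammingDist x y ≤ 1 := by
  unfold hammingDist
  have : (Finset.univ.filter fun i => x i ≠ y i) ⊆ {i} := by
    intro j hj
    simp only [Finset.mem_filter, Finset.mem_univ, true_and] at hj
    rw [Finset.mem_singleton]
    by_contra hne
    exact hj (h j hne)
  exact (Finset.card_le_card this).trans (by simp)

/-- two distinct points at distance `≤ 1` from each other; a third point at distance `≤ 1` from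
both lies on the same line. -/
theorem on_line {x a b : Fin n → ZMod q} {i : Fin n} (hab : a ≠ b) (hi : ∀ j, j ≠ i → a j = b j)
    (hn : 1 ≤ n) (hxa : hammingDist x a ≤ 1) (hxb : hammingDist x b ≤ 1) :
    ∀ j, j ≠ i → x j = a j := by
  obtain ⟨k, hk⟩ := exists_coord hn hxa
  obtain ⟨l, hl⟩ := exists_coord hn hxb
  by_cases hki : k = i
  · subst hki; exact hk
  · by_cases hli : l = i
    · subst hli
      intro j hj
      rw [hl j hj, hi j hj]
    · exfalso
      apply hab
      funext j
      by_cases hj : j = i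
      · subst hj
        rw [← hk j (Ne.symm hki), ← hl j (Ne.symm hli)]
      · exact hi j hj

theorem not_adj {x y : Fin n → ZMod q} (h : ¬ (HD q n 2).Adj x y) : hammingDist x y ≤ 1 := by
  by_contra h1
  apply h
  refine ⟨?_, by omega⟩
  rintro rfl
  simp at h1

theorem fibre_card_le [NeZero q] (hq : 1 ≤ q) (hn : 1 ≤ n) {C : Type} [DecidableEq C]
    (K : (Fin n → ZMod q) → C)
    (hK : ∀ u v, (HD q n 2).Adj u v → K u ≠ K v) (c : C) :
    (Finset.univ.filter fun v => K v = c).card ≤ q := by
  classical
  set F := Finset.univ.filter fun v => K v = c with hF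
  have hd : ∀ u ∈ F, ∀ v ∈ F, hammingDist u v ≤ 1 := by
    intro u hu v hv
    apply not_adj
    intro hadj
    apply hK u v hadj
    simp only [hF, Finset.mem_filter, Finset.mem_univ, true_and] at hu hv
    rw [hu, hv]
  by_cases h1 : F.card ≤ 1
  · omega
  · obtain ⟨x, hx, y, hy, hxy⟩ := Finset.one_lt_card.1 (by omega : 1 < F.card)
    obtain ⟨i, hi⟩ := exists_coord hn (hd x hx y hy)
    have hz : ∀ z ∈ F, ∀ j, j ≠ i → z j = x j := fun z hzF =>
      on_line hxy hi hn (hd z hzF x hx) (hd z hzF y hy)
    have : F.card ≤ (Finset.univ : Finset (ZMod q)).card := by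
      apply Finset.card_le_card_of_injOn (fun z => z i) (fun _ _ => Finset.mem_coe.2 (Finset.mem_univ _))
      intro z hzF w hwF hzw
      funext j
      by_cases hj : j = i
      · subst hj; exact hzw
      · rw [hz z hzF j hj, hz w hwF j hj]
    rwa [Finset.card_univ, ZMod.card] at this

theorem two_no_transition (hq : 3 ≤ q) (hn : 2 ≤ n) (K : (Fin n → ZMod q) → Fin (q ^ (n - 1)))
    (hK : ∀ u v, (HD q n 2).Adj u v → K u ≠ K v) (x y : Fin n → ZMod q) :
    ¬ IsTransitionEdge (HD q n 2) K x y := by
  have : NeZero q := ⟨by omega⟩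
  rintro ⟨hxy, hsw⟩
  have hle := fibre_card_le (by omega) (by omega) K hK
  have hsum : ∑ c : Fin (q ^ (n - 1)), (Finset.univ.filter fun v => K v = c).card = q ^ n := by
    rw [← Finset.card_eq_sum_card_fiberwise (f := K) (s := Finset.univ) (t := Finset.univ)
      (fun _ _ => Finset.mem_coe.2 (Finset.mem_univ _))]
    rw [Finset.card_univ, Fintype.card_fun, ZMod.card, Fintype.card_fin]
  have hcard : (Finset.univ.filter fun v => K v = K x).card = q := by
    apply le_antisymm (hle _)
    by_contra hlt
    push Not at hlt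
    have : ∑ c : Fin (q ^ (n - 1)), (Finset.univ.filter fun v => K v = c).card
        < ∑ c : Fin (q ^ (n - 1)), q :=
      Finset.sum_lt_sum (fun c _ => hle c) ⟨K x, Finset.mem_univ _, hlt⟩
    rw [hsum, Finset.sum_const, Finset.card_univ, Fintype.card_fin, smul_eq_mul,
      ← pow_succ, Nat.sub_add_cancel (by omega)] at this
    exact lt_irrefl _ this
  -- two further points in the class of `x`
  have h2 : 1 < ((Finset.univ.filter fun v => K v = K x).erase x).card := by
    rw [Finset.card_erase_of_mem (by simp), hcard]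
    omega
  obtain ⟨a, ha, b, hb, hab⟩ := Finset.one_lt_card.1 h2
  simp only [Finset.mem_erase, Finset.mem_filter, Finset.mem_univ, true_and] at ha hb
  have hKy : K y ≠ K x := fun h => hK x y hxy h.symm
  have hay : a ≠ y := fun h => hKy (h ▸ ha.2)
  have hby : b ≠ y := fun h => hKy (h ▸ hb.2)
  have hya : hammingDist y a ≤ 1 := by
    apply not_adj
    intro hadj
    apply hsw y a hadj
    rw [Equiv.swap_apply_right, Equiv.swap_apply_of_ne_of_ne ha.1 hay, ha.2]
  have hyb : hammingDist y b ≤ 1 := by
    apply not_adj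
    intro hadj
    apply hsw y b hadj
    rw [Equiv.swap_apply_right, Equiv.swap_apply_of_ne_of_ne hb.1 hby, hb.2]
  have hsame : ∀ u v, K u = K v → hammingDist u v ≤ 1 := by
    intro u v huv
    apply not_adj
    intro hadj
    exact hK u v hadj huv
  obtain ⟨i, hi⟩ := exists_coord (by omega) (hsame a b (by rw [ha.2, hb.2]))
  have hx' := on_line hab hi (by omega) (hsame x a ha.2.symm) (hsame x b hb.2.symm)
  have hy' := on_line hab hi (by omega) hya hyb
  have := dist_le_one_of i (x := x) (y := y) (fun j hj => by rw [hx' j hj, hy' j hj])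
  have h3 := hxy.2
  omega

end two

/-! ### The case `d ≥ 3` -/

section three

variable {q : ℕ}

/-- The syndrome map of the matrix whose columns are all vectors of `ZMod q ^ 3`. -/
def synd (q : ℕ) [NeZero q] : ((Fin 3 → ZMod q) → ZMod q) →+ (Fin 3 → ZMod q) where
  toFun u := ∑ s : Fin 3 → ZMod q, u s • s
  map_zero' := by simp
  map_add' u v := by
    simp [add_smul, Finset.sum_add_distrib]

theorem synd_single [NeZero q] (s : Fin 3 → ZMod q) : synd q (Pi.single s 1) = s := by
  show ∑ t : Fin 3 → ZMod q, (Pi.single s 1 : (Fin 3 → ZMod q) → ZMod q) t • t = s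
  rw [Finset.sum_eq_single s]
  · simp
  · intro t _ ht
    simp [Pi.single_eq_of_ne ht]
  · simp

theorem card_ker [NeZero q] : Nat.card (synd q).ker = q ^ (q ^ 3 - 3) := by
  have h1 := AddSubgroup.card_mul_index (synd q).ker
  rw [AddSubgroup.index_ker, AddMonoidHom.range_eq_top.2 (fun s => ⟨_, synd_single s⟩)] at h1
  have h2 : Nat.card (⊤ : AddSubgroup (Fin 3 → ZMod q)) = q ^ 3 := by
    rw [AddSubgroup.card_top, Nat.card_eq_fintype_card, Fintype.card_fun, ZMod.card,
      Fintype.card_fin]
  have h3 : Nat.card ((Fin 3 → ZMod q) → ZMod q) = q ^ (q ^ 3) := by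
    rw [Nat.card_eq_fintype_card, Fintype.card_fun, ZMod.card, Fintype.card_fun, ZMod.card,
      Fintype.card_fin]
  rw [h2, h3] at h1
  have hq : 0 < q := Nat.pos_of_ne_zero (NeZero.ne q)
  rcases Nat.lt_or_ge q 2 with h | h
  · have : q = 1 := by omega
    subst this
    simpa using h1
  · have h4 : 3 ≤ q ^ 3 := by nlinarith [Nat.pow_le_pow_left h 3]
    have h5 : q ^ (q ^ 3) = q ^ (q ^ 3 - 3) * q ^ 3 := by
      rw [← pow_add, Nat.sub_add_cancel h4]
    rw [h5] at h1
    exact Nat.eq_of_mul_eq_mul_right (pow_pos hq 3) h1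

/-- Nearest codeword. -/
def code [NeZero q] (u : (Fin 3 → ZMod q) → ZMod q) : (synd q).ker :=
  ⟨u - Pi.single (synd q u) 1, by
    rw [AddMonoidHom.mem_ker, map_sub, synd_single, sub_self]⟩

theorem code_eq [NeZero q] {u v : (Fin 3 → ZMod q) → ZMod q} (h : code u = code v)
    (i : Fin 3 → ZMod q) (h1 : i ≠ synd q u) (h2 : i ≠ synd q v) : u i = v i := by
  have := congrFun (congrArg Subtype.val h) i
  simpa [code, Pi.single_eq_of_ne h1, Pi.single_eq_of_ne h2] using this

/-- A proper colouring with `q^(n-d)` colours. -/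
theorem exists_coloring (d n : ℕ) (hq : 3 ≤ q) (hd : 3 ≤ d) (hn : q ^ 3 + d ≤ n + 3) :
    ∃ K : (Fin n → ZMod q) → Fin (q ^ (n - d)),
      ∀ u v, (HD q n d).Adj u v → K u ≠ K v := by
  have : NeZero q := ⟨by omega⟩
  have h27 : 27 ≤ q ^ 3 := by
    have := Nat.pow_le_pow_left hq 3
    simpa using this
  -- the coordinates
  have hcardI : Fintype.card (Fin 3 → ZMod q) = q ^ 3 := by
    rw [Fintype.card_fun, ZMod.card, Fintype.card_fin]
  let e : (Fin 3 → ZMod q) ≃ Fin (q ^ 3) := Fintype.equivFinOfCardEq hcardI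
  let ι : (Fin 3 → ZMod q) → Fin n := fun i => ⟨e i, by have := (e i).2; omega⟩
  let t : ℕ := n + 3 - (q ^ 3 + d)
  let ρ : Fin t → Fin n := fun j => ⟨q ^ 3 + (d - 3) + j, by have := j.2; omega⟩
  let K1 : (Fin n → ZMod q) → (synd q).ker × (Fin t → ZMod q) := fun x =>
    (code fun i => x (ι i), fun j => x (ρ j))
  have hcard : Nat.card ((synd q).ker × (Fin t → ZMod q)) = q ^ (n - d) := by
    rw [Nat.card_prod, card_ker, Nat.card_eq_fintype_card, Fintype.card_fun, ZMod.card,
      Fintype.card_fin, ← pow_add]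
    congr 1
    omega
  have hproper : ∀ u v, (HD q n d).Adj u v → K1 u ≠ K1 v := by
    intro u v huv he
    have he1 : code (fun i => u (ι i)) = code (fun i => v (ι i)) := congrArg Prod.fst he
    have he2 : ∀ j, u (ρ j) = v (ρ j) := fun j => congrFun (congrArg Prod.snd he) j
    have hdist : hammingDist u v ≤ d - 1 := by
      unfold hammingDist
      have hsub : (Finset.univ.filter fun i => u i ≠ v i) ⊆
          {ι (synd q fun i => u (ι i)), ι (synd q fun i => v (ι i))} ∪
          (Finset.univ.filter fun i : Fin n => q ^ 3 ≤ (i : ℕ) ∧ (i : ℕ) < q ^ 3 + (d - 3)) := by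
        intro i hi
        simp only [Finset.mem_filter, Finset.mem_univ, true_and] at hi
        by_contra hni
        simp only [Finset.mem_union, Finset.mem_insert, Finset.mem_singleton, Finset.mem_filter,
          Finset.mem_univ, true_and, not_or, not_and, not_lt] at hni
        obtain ⟨⟨h1, h2⟩, h3⟩ := hni
        apply hi
        by_cases hlt : (i : ℕ) < q ^ 3
        · have hi' : i = ι (e.symm ⟨i, hlt⟩) := by
            apply Fin.ext
            simp [ι]
          have := code_eq he1 (e.symm ⟨i, hlt⟩)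
            (by intro h; apply h1; rw [← h]; exact hi') (by intro h; apply h2; rw [← h]; exact hi')
          rw [← hi'] at this
          exact this
        · have h4 := h3 (by omega)
          have hi' : i = ρ ⟨(i : ℕ) - (q ^ 3 + (d - 3)), by have := i.2; omega⟩ := by
            apply Fin.ext
            simp only [ρ]
            omega
          rw [hi']
          exact he2 _
      refine (Finset.card_le_card hsub).trans ((Finset.card_union_le _ _).trans ?_)
      have c1 : (({ι (synd q fun i => u (ι i)), ι (synd q fun i => v (ι i))} :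
          Finset (Fin n))).card ≤ 2 := Finset.card_le_two
      have c2 : (Finset.univ.filter fun i : Fin n => q ^ 3 ≤ (i : ℕ) ∧
          (i : ℕ) < q ^ 3 + (d - 3)).card ≤ d - 3 := by
        have : ((Finset.univ.filter fun i : Fin n => q ^ 3 ≤ (i : ℕ) ∧
          (i : ℕ) < q ^ 3 + (d - 3)).map Fin.valEmbedding) ⊆
            Finset.Ico (q ^ 3) (q ^ 3 + (d - 3)) := by
          intro i hi
          simp only [Finset.mem_map, Finset.mem_filter, Finset.mem_univ, true_and,
            Fin.valEmbedding_apply] at hi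
          obtain ⟨a, ha, rfl⟩ := hi
          exact Finset.mem_Ico.2 ha
        have h := Finset.card_le_card this
        rw [Finset.card_map, Nat.card_Ico] at h
        omega
      omega
    have := huv.2
    omega
  obtain ⟨f⟩ : Nonempty (((synd q).ker × (Fin t → ZMod q)) ≃ Fin (q ^ (n - d))) := by
    have hfin : Finite ((synd q).ker × (Fin t → ZMod q)) := inferInstance
    exact ⟨Finite.equivFinOfCardEq hcard⟩
  exact ⟨fun x => f (K1 x), fun u v huv he => hproper u v huv (f.injective he)⟩

/-- Spare colours give a transition edge. -/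
theorem spare {V : Type} [DecidableEq V] (G : SimpleGraph V) {m M : ℕ} (K : V → Fin m)
    (hK : ∀ u v, G.Adj u v → K u ≠ K v) (hM : m + 2 ≤ M) (x y : V) (hxy : G.Adj x y) :
    ∃ K' : G.Coloring (Fin M), IsTransitionEdge G K' x y := by
  let L : V → Fin M := fun v =>
    if v = x then ⟨m, by omega⟩ else if v = y then ⟨m + 1, by omega⟩ else
      ⟨K v, by have := (K v).2; omega⟩
  have hLx : ∀ v, (L v : ℕ) = m ↔ v = x := by
    intro v
    by_cases h1 : v = x
    · simp [L, h1]
    · by_cases h2 : v = y
      · subst h2; simp [L, h1]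
      · have := (K v).2
        simp only [L, h1, h2, if_false]
        constructor
        · intro h; omega
        · intro h; exact absurd h (by simp)
  have hLy : ∀ v, (L v : ℕ) = m + 1 ↔ v = y := by
    intro v
    by_cases h1 : v = x
    · have : x ≠ y := hxy.ne
      simp [L, h1, this]
    · by_cases h2 : v = y
      · subst h2; simp [L, h1]
      · have := (K v).2
        simp only [L, h1, h2, if_false]
        constructor
        · intro h; omega
        · intro h; exact absurd h (by simp)
  have hL0 : ∀ v, v ≠ x → v ≠ y → (L v : ℕ) = K v := by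
    intro v h1 h2
    simp [L, h1, h2]
  have hprop : ∀ u v, G.Adj u v → L u ≠ L v := by
    intro u v huv he
    have he' : (L u : ℕ) = L v := congrArg _ he
    by_cases h1 : v = x
    · have := (hLx v).2 h1
      rw [this] at he'
      have := (hLx u).1 he'
      exact huv.ne (this.trans h1.symm)
    · by_cases h2 : v = y
      · have := (hLy v).2 h2
        rw [this] at he'
        have := (hLy u).1 he'
        exact huv.ne (this.trans h2.symm)
      · have h3 : u ≠ x := fun h => h1 ((hLx v).1 (he' ▸ (hLx u).2 h))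
        have h4 : u ≠ y := fun h => h2 ((hLy v).1 (he' ▸ (hLy u).2 h))
        rw [hL0 u h3 h4, hL0 v h1 h2] at he'
        exact hK u v huv (Fin.ext he')
  have hswap : ∀ u v, G.Adj u v → L (Equiv.swap x y u) ≠ L (Equiv.swap x y v) := by
    intro u v huv he
    have he' : (L (Equiv.swap x y u) : ℕ) = L (Equiv.swap x y v) := congrArg _ he
    by_cases h1 : Equiv.swap x y v = x
    · have := (hLx _).2 h1
      rw [this] at he'
      have := (hLx _).1 he'
      exact huv.ne ((Equiv.swap x y).injective (this.trans h1.symm))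
    · by_cases h2 : Equiv.swap x y v = y
      · have := (hLy _).2 h2
        rw [this] at he'
        have := (hLy _).1 he'
        exact huv.ne ((Equiv.swap x y).injective (this.trans h2.symm))
      · have h3 : Equiv.swap x y u ≠ x := fun h => h1 ((hLx _).1 (he' ▸ (hLx _).2 h))
        have h4 : Equiv.swap x y u ≠ y := fun h => h2 ((hLy _).1 (he' ▸ (hLy _).2 h))
        have hv1 : v ≠ x := fun h => h2 (by rw [h, Equiv.swap_apply_left])
        have hv2 : v ≠ y := fun h => h1 (by rw [h, Equiv.swap_apply_right])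
        have hu1 : u ≠ x := fun h => h4 (by rw [h, Equiv.swap_apply_left])
        have hu2 : u ≠ y := fun h => h3 (by rw [h, Equiv.swap_apply_right])
        rw [Equiv.swap_apply_of_ne_of_ne hv1 hv2, Equiv.swap_apply_of_ne_of_ne hu1 hu2,
          hL0 u hu1 hu2, hL0 v hv1 hv2] at he'
        exact hK u v huv (Fin.ext he')
  exact ⟨SimpleGraph.Coloring.mk L (fun {u v} h => hprop u v h), hxy, hswap⟩

end three

/-- For `q ≥ 3`: with `d = 2` no proper `q^(n-d+1)`-colouring of `H_q(n,d)` has a transition edge;
for every `d ≥ 3` and every `n ≥ q^3 + d - 3` some proper `q^(n-d+1)`-colouring has one. In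
particular the statement of Q1 is false. -/
theorem result :
    (∀ q n : ℕ, 3 ≤ q → 2 ≤ n → ∀ (K : (HD q n 2).Coloring (Fin (q ^ (n - 2 + 1))))
      (x y : Fin n → ZMod q), ¬ IsTransitionEdge (HD q n 2) K x y) ∧
    (∀ q d n : ℕ, 3 ≤ q → 3 ≤ d → q ^ 3 + d - 3 ≤ n →
      ∃ (K : (HD q n d).Coloring (Fin (q ^ (n - d + 1)))) (x y : Fin n → ZMod q),
        IsTransitionEdge (HD q n d) K x y) ∧
    ¬ (∀ q d n : ℕ, 3 ≤ q → 2 ≤ d → d ≤ n → ∀ (K : (HD q n d).Coloring (Fin (q ^ (n - d + 1))))
      (x y : Fin n → ZMod q), ¬ IsTransitionEdge (HD q n d) K x y) := by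
  have h2 : ∀ q d n : ℕ, 3 ≤ q → 3 ≤ d → q ^ 3 + d - 3 ≤ n →
      ∃ (K : (HD q n d).Coloring (Fin (q ^ (n - d + 1)))) (x y : Fin n → ZMod q),
        IsTransitionEdge (HD q n d) K x y := by
    intro q d n hq hd hn
    have h27 : 27 ≤ q ^ 3 := by
      have := Nat.pow_le_pow_left hq 3
      simpa using this
    obtain ⟨K, hK⟩ := exists_coloring (q := q) d n hq hd (by omega)
    have h1q : (0 : ZMod q) ≠ 1 := by
      have : Fact (1 < q) := ⟨by omega⟩
      exact zero_ne_one
    have hadj : (HD q n d).Adj (fun _ => 0) (fun _ => 1) := by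
      have hd' : hammingDist (fun _ : Fin n => (0 : ZMod q)) (fun _ => 1) = n := by
        simp [hammingDist, h1q]
      refine ⟨?_, by rw [hd']; omega⟩
      intro h
      exact h1q (congrFun h ⟨0, by omega⟩)
    obtain ⟨K', hK'⟩ := spare (HD q n d) K hK (M := q ^ (n - d + 1)) (by
      have : 1 ≤ q ^ (n - d) := Nat.one_le_pow _ _ (by omega)
      calc q ^ (n - d) + 2 ≤ q ^ (n - d) * 3 := by omega
        _ ≤ q ^ (n - d) * q := Nat.mul_le_mul_left _ hq
        _ = q ^ (n - d + 1) := (pow_succ _ _).symm) _ _ hadj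
    exact ⟨K', _, _, hK'⟩
  refine ⟨?_, h2, ?_⟩
  · intro q n hq hn
    have e : n - 2 + 1 = n - 1 := by omega
    rw [e]
    intro K x y
    exact two_no_transition hq hn K (fun u v h => K.valid h) x y
  · intro h
    obtain ⟨K, x, y, hK⟩ := h2 3 3 27 le_rfl le_rfl (by norm_num)
    exact h 3 3 27 le_rfl (by norm_num) (by norm_num) K x y hK

end Pool.Agent.Results.MP_3553b5_co.TransitionEdges
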